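import Pool.Agent.SPV.StmtsL

set_option autoImplicit false

namespace Pool.Agent.SPV.H77

open Finset

theorem rts : RtsStmt := by
  classical
  intro p q _ _ hq hqp
  have hp : p.Prime := Fact.out
  have : Fact q.Prime := ⟨hq⟩
  have hcard : Nat.card (ZMod p)ˣ = p - 1 := by
    rw [Nat.card_eq_fintype_card, ZMod.card_units_eq_totient, Nat.totient_prime hp]
  obtain ⟨g, hg⟩ := exists_prime_orderOf_dvd_card' (G := (ZMod p)ˣ) q (by rw [hcard]; exact hqp)
  have hg' : IsPrimitiveRoot g q := by rw [← hg]; exact IsPrimitiveRoot.orderOf g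
  have hz : IsPrimitiveRoot ((g : (ZMod p)ˣ) : ZMod p) q := IsPrimitiveRoot.coe_units_iff.mpr hg'
  refine ⟨((g : (ZMod p)ˣ) : ZMod p), hz, ?_⟩
  intro A β
  set z : ZMod p := ((g : (ZMod p)ˣ) : ZMod p) with hzdef
  have hz1 : z ^ q = 1 := hz.pow_eq_one
  have hpow : ∀ (s : ZMod q) (i : ℕ), z ^ (s * (i : ZMod q)).val = (z ^ s.val) ^ i := by
    intro s i
    rw [← pow_mul]
    have h1 : (s * (i : ZMod q)).val % q = (s.val * i) % q := by
      have h2 : (((s * (i : ZMod q)).val : ℕ) : ZMod q) = ((s.val * i : ℕ) : ZMod q) := by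
        rw [ZMod.natCast_zmod_val, Nat.cast_mul, ZMod.natCast_zmod_val]
      exact (ZMod.natCast_eq_natCast_iff _ _ _).mp h2
    rw [pow_eq_pow_mod _ hz1, h1, ← pow_eq_pow_mod _ hz1]
  unfold nr
  have himg : {z' : ZMod p | z' ^ q = 1 ∧ ∑ i ∈ A, β i * z' ^ i = 0} =
      (((univ.filter fun s : ZMod q => ∑ i ∈ A, β i * z ^ (s * (i : ZMod q)).val = 0).image
        fun s : ZMod q => z ^ s.val : Finset (ZMod p)) : Set (ZMod p)) := by
    ext x
    simp only [Set.mem_ofPred_eq, Finset.coe_image, Set.mem_image, Finset.mem_coe,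
      Finset.mem_filter, Finset.mem_univ, true_and]
    constructor
    · rintro ⟨h1, h2⟩
      obtain ⟨i, hi, hix⟩ := hz.eq_pow_of_pow_eq_one h1
      refine ⟨(i : ZMod q), ?_, ?_⟩
      · have h3 : z ^ ((i : ZMod q)).val = x := by
          rw [ZMod.val_natCast, Nat.mod_eq_of_lt hi, hix]
        rw [← h2]
        refine Finset.sum_congr rfl fun j _ => ?_
        rw [hpow, h3]
      · rw [ZMod.val_natCast, Nat.mod_eq_of_lt hi, hix]
    · rintro ⟨s, h1, rfl⟩
      refine ⟨?_, ?_⟩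
      · rw [← pow_mul, mul_comm, pow_mul, hz1, one_pow]
      · rw [← h1]
        refine Finset.sum_congr rfl fun j _ => ?_
        rw [hpow]
  rw [himg, Set.ncard_coe_finset, Finset.card_image_of_injOn]
  intro s _ t _ hst
  have h1 : s.val = t.val := hz.pow_inj (ZMod.val_lt s) (ZMod.val_lt t) hst
  exact ZMod.val_injective q h1

end Pool.Agent.SPV.H77
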