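import Pool.Agent.SPV.StmtsE

set_option autoImplicit false

namespace Pool.Agent.SPV.H77

open Finset

theorem spa (hChe : CheStmt) : SpaStmt := by
  classical
  intro q _ hq w hw A c hc
  by_contra hcon
  have hle : A.card ≤ (univ.filter fun s : ZMod q => ∑ i ∈ A, c i * w ^ (s * i).val = 0).card :=
    not_lt.mp hcon
  obtain ⟨Zs, hZs, hZc⟩ := Finset.exists_subset_card_eq hle
  let et : Fin A.card ≃ Zs := (Finset.equivFinOfCardEq hZc).symm
  let ea : Fin A.card ≃ A := A.equivFin.symm
  have ht : Function.Injective fun i : Fin A.card => ((et i : Zs) : ZMod q) :=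
    fun i j h => et.injective (Subtype.ext h)
  have ha : Function.Injective fun i : Fin A.card => ((ea i : A) : ZMod q) :=
    fun i j h => ea.injective (Subtype.ext h)
  have h1 := hChe q hq w hw A.card (fun i => ((et i : Zs) : ZMod q))
    (fun i => ((ea i : A) : ZMod q)) ht ha
  apply h1
  rw [← Matrix.exists_mulVec_eq_zero_iff]
  obtain ⟨i₀, hi₀, hci₀⟩ := hc
  refine ⟨fun j => c (ea j), ?_, ?_⟩
  · intro h0
    have h2 := congrFun h0 (ea.symm ⟨i₀, hi₀⟩)
    simp only [Equiv.apply_symm_apply, Pi.zero_apply] at h2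
    exact hci₀ h2
  · funext i
    have h2 : ((et i : Zs) : ZMod q) ∈
        univ.filter fun s : ZMod q => ∑ i ∈ A, c i * w ^ (s * i).val = 0 := hZs (et i).2
    rw [Finset.mem_filter] at h2
    rw [Pi.zero_apply, ← h2.2, Matrix.mulVec, dotProduct, ← Finset.sum_coe_sort A]
    rw [← Equiv.sum_comp ea]
    refine Finset.sum_congr rfl fun j _ => ?_
    simp only [Matrix.of_apply]
    ring

end Pool.Agent.SPV.H77
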